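import Pool.Agent.H17.CI.TargetsG
import Pool.Agent.H92.VG.BS

/-!
# BST: unique decomposition of families of forms
-/

set_option autoImplicit false

namespace Pool.Agent.H3.CI

open MvPolynomial SC Pool.Agent.H27.LV Pool.Agent.H17.VG Pool.Agent.H17.CI Pool.Agent.H92.VG

theorem det_ne_zero_of_indep {ι m : Type} [Fintype ι] [DecidableEq ι] {K : Type}
    [Field K] (e0 : ι ≃ m) (M : Matrix m ι K) (h : LinearIndependent K (fun c r => M r c)) :
    (M.submatrix e0 id).det ≠ 0 := by
  have h1 : LinearIndependent K (M.submatrix e0 id).col := by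
    have h2 := h.map' (LinearEquiv.funCongrLeft K K e0).toLinearMap
      (LinearEquiv.ker (LinearEquiv.funCongrLeft K K e0))
    exact h2
  have h3 := Matrix.linearIndependent_cols_iff_isUnit.1 h1
  rw [Matrix.isUnit_iff_isUnit_det] at h3
  exact h3.ne_zero

section

variable {K : Type} [Field K] {n : ℕ} {ι : Type} {e : ι → ℕ}

/-- the monomials of the families -/
abbrev Ka (n : ℕ) (e : ι → ℕ) : Type := Σ i, Mon (n + 1) (e i + 1)

/-- the parameters: rows `1, …, n` of the matrix and scalings -/
abbrev Th (n : ℕ) (ι : Type) : Type := (Fin n × Fin (n + 1)) ⊕ ι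

/-- the matrix with parameters `w` -/
def Am (w : Th n ι → K) : Matrix (Fin (n + 1)) (Fin (n + 1)) K :=
  Matrix.of fun i b => Fin.cases 0 (fun a => w (Sum.inl (a, b))) i

lemma Am_zero (w : Th n ι → K) (j : Fin (n + 1)) : Am w 0 j = 0 := rfl

lemma Am_succ (w : Th n ι → K) (a : Fin n) (j : Fin (n + 1)) :
    Am w a.succ j = w (Sum.inl (a, j)) := rfl

/-- the symbol with parameters `w` -/
noncomputable def sy (F : Tup ι K n) (w : Th n ι → K) : Tup ι K n := fun i =>
  lv (F i) (Am w) + C (w (Sum.inr i)) * F i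

open Classical in
/-- the coefficients of the symbols of the parameters -/
noncomputable def NN (F : Tup ι K n) (M : Ka n e) (θ : Th n ι) : K :=
  Sum.elim (fun p : Fin n × Fin (n + 1) => coeff (fs M.2.1) (X p.2 * pderiv p.1.succ (F M.1)))
    (fun i => if M.1 = i then coeff (fs M.2.1) (F M.1) else 0) θ

lemma sy_homog {F : Tup ι K n} (hF : ∀ i, (F i).IsHomogeneous (e i + 1)) (w : Th n ι → K)
    (i : ι) : (sy F w i).IsHomogeneous (e i + 1) := by
  unfold sy
  refine (lv_homog (hF i) _).add ?_
  have := (isHomogeneous_C (Fin (n + 1)) (w (Sum.inr i))).mul (hF i)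
  rwa [zero_add] at this

lemma coeff_sy [Fintype ι] (F : Tup ι K n) (w : Th n ι → K) (M : Ka n e) :
    coeff (fs M.2.1) (sy F w M.1) = ∑ θ, NN F M θ * w θ := by
  classical
  unfold sy
  rw [coeff_add, coeff_lv, coeff_C_mul, Fintype.sum_sum_type, Fintype.sum_prod_type,
    Fintype.sum_prod_type, Fin.sum_univ_succ]
  congr 1
  · rw [Finset.sum_eq_zero, zero_add]
    · rfl
    · intro j _
      rw [Am_zero, mul_zero]
  · rw [Finset.sum_eq_single M.1]
    · simp only [NN, Sum.elim_inr, if_true]
      rw [mul_comm]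
    · intro i _ hi
      simp only [NN, Sum.elim_inr]
      rw [if_neg hi.symm, zero_mul]
    · intro h
      exact absurd (Finset.mem_univ _) h

lemma eq_of_coeff {m : ℕ} {G H : MvPolynomial (Fin (n + 1)) K} (hG : G.IsHomogeneous m)
    (hH : H.IsHomogeneous m) (h : ∀ M : Mon (n + 1) m, coeff (fs M.1) G = coeff (fs M.1) H) :
    G = H := by
  rw [← frm_coeff hG, ← frm_coeff hH]
  congr 1
  exact funext h

end

/-- BST -/
theorem pf_BST : T_BST := by
  classical
  intro k _ _ n ι _ e c hinj
  have hFh : ∀ i, (frmT c i : MvPolynomial (Fin (n + 1)) k).IsHomogeneous (e i + 1) :=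
    fun i => frm_homog _
  let v : Th n ι ⊕ Ka n e → (Ka n e → k) :=
    Sum.elim (fun θ M => NN (frmT c) M θ) (fun M => Pi.single M 1)
  have hN : LinearIndependent k (fun (θ : Th n ι) (M : Ka n e) => NN (frmT c) M θ) := by
    rw [Fintype.linearIndependent_iff]
    intro w hw
    have h1 : ∀ i, sy (frmT c) w i = 0 := by
      intro i
      refine eq_of_coeff (sy_homog hFh w i) (isHomogeneous_zero _ _ _) fun M => ?_
      have h2 := coeff_sy (frmT c) w (⟨i, M⟩ : Ka n e)
      rw [coeff_zero]
      refine h2.trans ?_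
      have h3 := congrFun hw (⟨i, M⟩ : Ka n e)
      rw [Finset.sum_apply] at h3
      refine Eq.trans ?_ h3
      refine Finset.sum_congr rfl fun θ _ => ?_
      rw [Pi.smul_apply, smul_eq_mul, mul_comm]
    obtain ⟨h2, h3⟩ := hinj (Am w) (fun i => w (Sum.inr i)) (Am_zero w) h1
    intro θ
    rcases θ with ⟨a, b⟩ | i
    · rw [← Am_succ w a b, h2]
      rfl
    · exact congrFun h3 i
  have hind : LinearIndepOn k v (Set.range (Sum.inl : Th n ι → Th n ι ⊕ Ka n e)) := by
    rw [linearIndepOn_range_iff Sum.inl_injective]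
    exact hN
  obtain ⟨B, -, hB1, hB2, hB3⟩ := exists_linearIndepOn_extension hind (Set.subset_univ _)
  let g : Th n ι ⊕ {M : Ka n e // Sum.inr M ∈ B} → Th n ι ⊕ Ka n e :=
    Sum.map id (fun M => M.1)
  have hg : Function.Injective g := Function.injective_id.sumMap Subtype.val_injective
  have hgB : Set.range g = B := by
    ext c
    constructor
    · rintro ⟨θ | M, rfl⟩
      · exact hB1 ⟨θ, rfl⟩
      · exact M.2
    · intro hc
      rcases c with θ | M
      · exact ⟨Sum.inl θ, rfl⟩
      · exact ⟨Sum.inr ⟨M, hc⟩, rfl⟩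
  have hli : LinearIndependent k (v ∘ g) := by
    rw [← linearIndepOn_range_iff hg, hgB]
    exact hB3
  have hsp : Submodule.span k (Set.range (v ∘ g)) = ⊤ := by
    rw [Set.range_comp, hgB, eq_top_iff]
    have h1 : Submodule.span k (Set.range v) ≤ Submodule.span k (v '' B) := by
      rw [Submodule.span_le]
      rw [Set.image_univ] at hB2
      exact hB2
    refine le_trans ?_ h1
    rw [← (Pi.basisFun k (Ka n e)).span_eq, Submodule.span_le]
    rintro _ ⟨M, rfl⟩
    refine Submodule.subset_span ⟨Sum.inr M, ?_⟩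
    rw [Pi.basisFun_apply]
    rfl
  have hcard : Fintype.card (Th n ι ⊕ {M : Ka n e // Sum.inr M ∈ B}) =
      Fintype.card (Ka n e) := by
    have h1 := finrank_span_eq_card hli
    rw [hsp, finrank_top, Module.finrank_fintype_fun_eq_card] at h1
    exact h1.symm
  let e0 := Fintype.equivOfCardEq hcard
  let Mk : Matrix (Ka n e) (Th n ι ⊕ {M : Ka n e // Sum.inr M ∈ B}) k :=
    Matrix.of fun r c => v (g c) r
  have hdet : (Mk.submatrix e0 id).det ≠ 0 := det_ne_zero_of_indep e0 Mk hli
  refine ⟨fun M => Sum.inr M ∈ B, fun K _ _ => ?_⟩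
  set F : Tup ι K n := upT K (frmT c) with hF
  have hFK : ∀ i, (F i).IsHomogeneous (e i + 1) := fun i => (hFh i).map _
  let MK : Matrix (Ka n e) (Th n ι ⊕ {M : Ka n e // Sum.inr M ∈ B}) K :=
    Mk.map (algebraMap k K)
  have hdetK : (MK.submatrix e0 id).det ≠ 0 := by
    have h1 : MK.submatrix e0 id = (Mk.submatrix e0 id).map (algebraMap k K) := rfl
    rw [h1, ← RingHom.mapMatrix_apply, ← RingHom.map_det, Ne, map_eq_zero]
    exact hdet
  have hNK : ∀ (M : Ka n e) (θ : Th n ι), MK M (Sum.inl θ) = NN F M θ := by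
    intro M θ
    show algebraMap k K (NN (frmT c) M θ) = NN F M θ
    rcases θ with p | i
    · show algebraMap k K (coeff (fs M.2.1) (X p.2 * pderiv p.1.succ (frmT c M.1))) =
        coeff (fs M.2.1) (X p.2 * pderiv p.1.succ (F M.1))
      rw [hF]
      show _ = coeff (fs M.2.1) (X p.2 * pderiv p.1.succ (up K (frmT c M.1)))
      unfold up
      rw [pderiv_map, ← coeff_map, map_mul, map_X]
    · show algebraMap k K (if M.1 = i then coeff (fs M.2.1) (frmT c M.1) else 0) =
        if M.1 = i then coeff (fs M.2.1) (F M.1) else 0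
      split_ifs
      · rw [← coeff_map]
        rfl
      · exact map_zero _
  have hPK : ∀ (M : Ka n e) (P : {M : Ka n e // Sum.inr M ∈ B}),
      MK M (Sum.inr P) = if M = P.1 then 1 else 0 := by
    intro M P
    show algebraMap k K ((Pi.single P.1 1 : Ka n e → k) M) = _
    rw [Pi.single_apply]
    split_ifs
    · exact map_one _
    · exact map_zero _
  -- the value of the matrix
  have hmv : ∀ (w : Th n ι ⊕ {M : Ka n e // Sum.inr M ∈ B} → K) (M : Ka n e),
      MK.mulVec w M = coeff (fs M.2.1) (sy F (fun θ => w (Sum.inl θ)) M.1) +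
        if h : Sum.inr M ∈ B then w (Sum.inr ⟨M, h⟩) else 0 := by
    intro w M
    rw [coeff_sy]
    show ∑ c, MK M c * w c = _
    rw [Fintype.sum_sum_type]
    congr 1
    · exact Finset.sum_congr rfl fun θ _ => by rw [hNK]
    · by_cases h : Sum.inr M ∈ B
      · rw [dif_pos h, Finset.sum_eq_single ⟨M, h⟩]
        · rw [hPK, if_pos rfl, one_mul]
        · intro P _ hP
          rw [hPK, if_neg, zero_mul]
          intro h1
          exact hP (Subtype.ext h1.symm)
        · intro h1
          exact absurd (Finset.mem_univ _) h1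
      · rw [dif_neg h]
        refine Finset.sum_eq_zero fun P _ => ?_
        rw [hPK, if_neg, zero_mul]
        intro h1
        exact h (h1 ▸ P.2)
  refine ⟨fun G hG => ?_, fun g' A l hg' hA h0 => ?_⟩
  · -- existence
    obtain ⟨b, hb⟩ : ∃ b : Ka n e → K, b = fun M => coeff (fs M.2.1) (G M.1) := ⟨_, rfl⟩
    obtain ⟨w, hw⟩ : ∃ w, MK.mulVec w = b := by
      refine ⟨(MK.submatrix e0 id)⁻¹.mulVec (b ∘ e0), ?_⟩
      have h1 : (MK.submatrix e0 id).mulVec ((MK.submatrix e0 id)⁻¹.mulVec (b ∘ e0)) =
          b ∘ e0 := by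
        rw [Matrix.mulVec_mulVec, Matrix.mul_nonsing_inv _ (isUnit_iff_ne_zero.2 hdetK),
          Matrix.one_mulVec]
      funext M
      have h2 := congrFun h1 (e0.symm M)
      have h3 : (b ∘ e0) (e0.symm M) = b M := by
        rw [Function.comp_apply, Equiv.apply_symm_apply]
      rw [h3] at h2
      rw [← h2]
      show ∑ c, MK M c * _ = ∑ c, MK (e0 (e0.symm M)) c * _
      rw [Equiv.apply_symm_apply]
    refine ⟨fun M => if h : Sum.inr M ∈ B then w (Sum.inr ⟨M, h⟩) else 0,
      Am fun θ => w (Sum.inl θ), fun i => w (Sum.inl (Sum.inr i)), ?_, Am_zero _, ?_⟩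
    · intro M hM
      exact dif_neg hM
    · intro i
      show G i = frmT _ i + lv (F i) _ + _ * F i
      rw [add_assoc]
      refine eq_of_coeff (hG i) ((frm_homog _).add (sy_homog hFK _ i)) fun M => ?_
      have h1 := congrFun hw (⟨i, M⟩ : Ka n e)
      rw [hmv, hb] at h1
      rw [coeff_add]
      show _ = coeff (fs M.1) (frm _) + coeff (fs M.1) (sy F (fun θ => w (Sum.inl θ)) i)
      rw [coeff_frm]
      exact h1.symm.trans (add_comm _ _)
  · -- uniqueness
    let w : Th n ι ⊕ {M : Ka n e // Sum.inr M ∈ B} → K :=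
      Sum.elim (Sum.elim (fun p => A p.1.succ p.2) l) (fun M => g' M.1)
    have hAm : Am (fun θ => w (Sum.inl θ)) = A := by
      ext i j
      refine Fin.cases ?_ (fun a => ?_) i
      · rw [Am_zero, hA]
      · rfl
    have hw : MK.mulVec w = 0 := by
      funext M
      rw [hmv]
      have h1 := congrArg (coeff (fs M.2.1)) (h0 M.1)
      have h2 : (if h : Sum.inr M ∈ B then w (Sum.inr ⟨M, h⟩) else 0) = g' M := by
        split_ifs with h
        · rfl
        · exact (hg' M h).symm
      rw [h2, Pi.zero_apply]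
      rw [coeff_zero] at h1
      rw [← h1]
      show coeff _ (lv (F M.1) (Am fun θ => w (Sum.inl θ)) + C (l M.1) * F M.1) + g' M =
        coeff _ (frmT g' M.1 + lv (F M.1) A + C (l M.1) * F M.1)
      rw [hAm, add_assoc, coeff_add _ (frmT g' M.1), add_comm]
      congr 1
      exact (coeff_frm (fun M' => g' ⟨M.1, M'⟩) M.2).symm
    have hw0 : w = 0 := by
      have h1 : (MK.submatrix e0 id).mulVec w = 0 := by
        funext c
        exact congrFun hw (e0 c)
      exact Matrix.eq_zero_of_mulVec_eq_zero hdetK h1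
    refine ⟨?_, ?_, ?_⟩
    · funext M
      by_cases h : Sum.inr M ∈ B
      · exact congrFun hw0 (Sum.inr ⟨M, h⟩)
      · exact hg' M h
    · rw [← hAm]
      ext i j
      refine Fin.cases ?_ (fun a => ?_) i
      · rfl
      · exact congrFun hw0 (Sum.inl (Sum.inl (a, j)))
    · funext i
      exact congrFun hw0 (Sum.inl (Sum.inr i))

end Pool.Agent.H3.CI
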