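import Pool.Agent.H35.CI.NBTa
import Pool.Agent.H3.CI.BST

/-!
# NAT: choice of columns, first case
-/

set_option autoImplicit false

namespace Pool.Agent.H3.CI

open MvPolynomial SC Pool.Agent.H27.LV Pool.Agent.H17.VG Pool.Agent.H17.CI Pool.Agent.H35.CI
open Pool.Agent.H90.VG (wv)

/-- the vector `w` in the upper rows -/
noncomputable def upA (K : Type) [Field K] (n s : ℕ) :
    (Fin n → K) →ₗ[K] (Fin n ⊕ Fin s → K) where
  toFun w := Sum.elim w 0
  map_add' a b := by
    funext r
    rcases r with r | r
    · rfl
    · exact (add_zero (0 : K)).symm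
  map_smul' c a := by
    funext r
    rcases r with r | r
    · rfl
    · exact (smul_zero c).symm

/-- affine coordinates of a vector modulo `x` -/
noncomputable def rhoA {K : Type} [Field K] {n : ℕ} (x : Fin (n + 1) → K) :
    (Fin (n + 1) → K) →ₗ[K] (Fin n → K) where
  toFun w := fun a => w a.succ - w 0 * x a.succ
  map_add' a b := by
    funext r
    simp only [Pi.add_apply]
    ring
  map_smul' c a := by
    funext r
    simp only [Pi.smul_apply, smul_eq_mul, RingHom.id_apply]
    ring

/-- NAT -/
theorem pf_NAT (hSY : T_SY) (hWDT : Pool.Agent.H17.CI.T_WDT) (hEVT : T_EVT) : T_NAT := by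
  classical
  intro R k K _ _ _ _ _ _ n s ι _ _ e F D D' Z x hS hDD hPt Q τ l hτ hfin J hJ
  have hp : x 0 = 1 := hPt.one
  obtain ⟨hE1, hE2, hE3, hE4, hE5⟩ := hEVT R K n ι e F D' Z x hS hPt
  have hDx : (fun i => D' (x i)) = (fun i => D (x i)) := funext fun i => hDD _
  rw [hDx] at hE3
  have hUt := UtT_PQT hSY hWDT hS x hp Q τ l hτ
  rw [hDx] at hUt
  have hle : UtT R F x (PQT x Q) ≤ TxT Z F x := by
    refine hE5 _ fun G hG i hi => ?_
    unfold PQT at hG
    induction hG using Submodule.span_induction with
    | mem G hG =>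
      obtain ⟨ξ, j, hξ', rfl⟩ := hG
      have h1 : eval x (lin ξ) = ∑ i, ξ i * x i := by
        unfold lin
        simp
      rw [map_mul, h1, hξ', zero_mul]
    | zero => simp
    | add G G' _ _ h h' => rw [Pi.add_apply, map_add, h, h', add_zero]
    | smul a G _ h => rw [Pi.smul_apply, smul_eq_C_mul, map_mul, h, mul_zero]
  have hTx : UtT R F x (PQT x Q) = TxT Z F x :=
    Submodule.eq_of_le_of_finrank_eq hle (by omega)
  have hD0 : D (x 0) = 0 := by rw [hp, ← map_one (algebraMap k K), D.map_algebraMap]
  -- the columns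
  set M := bigA D x (fun c : Fin (n + 1) × Fin s => τ c.1 c.2) (fun c => c.1) (fun c => c.2) J
    with hM
  set v : ((Fin (n + 1) × Fin s) ⊕ Unit) ⊕ Z → (Fin n ⊕ Fin s → K) := fun c r => M r c with hv
  have hvD : v (Sum.inl (Sum.inr ())) = upA K n s (fun a => D (x a.succ)) := by
    funext r
    rcases r with r | r <;> rfl
  have hvZ : ∀ z, v (Sum.inr z) = upA K n s (Pi.single (J z) 1) := by
    intro z
    funext r
    rcases r with r | r
    · show (if J z = r then (1 : K) else 0) = (Pi.single (J z) 1 : Fin n → K) r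
      rw [Pi.single_apply]
      simp only [eq_comm]
    · rfl
  have hvc : ∀ i j, v (Sum.inl (Sum.inl (i, j))) = Sum.elim (fun a => opV (τ i j) x a.succ)
      (fun b => if j = b then x i else 0) := by
    intro i j
    funext r
    rcases r with r | r <;> rfl
  have hop0 : ∀ i j, opV (τ i j) x 0 = 0 := fun i j => (hE1 _ _ _ (hτ i j)).1
  -- tangent vectors
  have hN1 : TxT Z F x ≤ (Submodule.span K (Set.range v)).comap
      ((upA K n s).comp (rhoA x)) := by
    rw [← hTx, hUt, Submodule.span_le]
    rintro w (⟨c, rfl⟩ | rfl | rfl)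
    · obtain ⟨i, j⟩ := c
      show upA K n s (rhoA x (wv x 0 τ (i, j))) ∈ Submodule.span K (Set.range v)
      have h1 : upA K n s (rhoA x (wv x 0 τ (i, j))) =
          v (Sum.inl (Sum.inl (i, j))) - x i • v (Sum.inl (Sum.inl (0, j))) := by
        rw [hvc, hvc]
        funext r
        rcases r with a | b
        · show (opV (τ i j) x - x i • opV (τ 0 j) x) a.succ -
            (opV (τ i j) x - x i • opV (τ 0 j) x) 0 * x a.succ =
            opV (τ i j) x a.succ - x i • opV (τ 0 j) x a.succ
          simp only [Pi.sub_apply, Pi.smul_apply, hop0, smul_zero, sub_zero, zero_mul]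
        · show (0 : K) = (if j = b then x i else 0) - x i • (if j = b then x 0 else 0)
          rw [hp]
          split_ifs
          · rw [smul_eq_mul, mul_one, sub_self]
          · rw [smul_zero, sub_zero]
      rw [h1]
      exact Submodule.sub_mem _ (Submodule.subset_span ⟨_, rfl⟩)
        (Submodule.smul_mem _ _ (Submodule.subset_span ⟨_, rfl⟩))
    · show upA K n s (rhoA x (fun i => D (x i))) ∈ Submodule.span K (Set.range v)
      have h1 : rhoA x (fun i => D (x i)) = fun a => D (x a.succ) := by
        funext a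
        show D (x a.succ) - D (x 0) * x a.succ = _
        rw [hD0, zero_mul, sub_zero]
      rw [h1, ← hvD]
      exact Submodule.subset_span ⟨_, rfl⟩
    · show upA K n s (rhoA w w) ∈ Submodule.span K (Set.range v)
      have h1 : rhoA w w = 0 := by
        funext a
        show w a.succ - w 0 * w a.succ = 0
        rw [hp, one_mul, sub_self]
      rw [h1, map_zero]
      exact Submodule.zero_mem _
  -- the functionals
  have hJu := Pool.Agent.H35.CI.gJ_inj F x J hJ
  let Gm : Matrix Z Z K := Matrix.of fun i z => eval x (pderiv (J z).succ (F i))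
  have hGdet : IsUnit Gm.det := by
    rw [isUnit_iff_ne_zero]
    intro h0
    obtain ⟨u, hu, hu0⟩ := Matrix.exists_mulVec_eq_zero_iff.2 h0
    exact hu (hJu u fun i => congrFun hu0 i)
  have hup : ∀ w : Fin n → K, upA K n s w ∈ Submodule.span K (Set.range v) := by
    intro w
    obtain ⟨y, hy⟩ : ∃ y : Z → K, y = fun i : Z => ∑ a : Fin n, w a *
      eval x (pderiv a.succ (F i)) := ⟨_, rfl⟩
    obtain ⟨c, hc⟩ : ∃ c : Z → K, Gm.mulVec c = y := by
      refine ⟨Gm⁻¹.mulVec y, ?_⟩
      rw [Matrix.mulVec_mulVec, Matrix.mul_nonsing_inv _ hGdet, Matrix.one_mulVec]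
    obtain ⟨w', hw'⟩ : ∃ w' : Fin n → K, w' = w - ∑ z, c z • (Pi.single (J z) 1 : Fin n → K) := ⟨_, rfl⟩
    have h1 : (Fin.cons 0 w' : Fin (n + 1) → K) ∈ TxT Z F x := by
      intro i hi
      rw [Fin.sum_univ_succ]
      simp only [Fin.cons_zero, Fin.cons_succ, zero_mul, zero_add]
      rw [hw']
      have h2 := congrFun hc (⟨i, hi⟩ : Z)
      rw [hy] at h2
      have h3 : ∀ a : Fin n, (w - ∑ z, c z • (Pi.single (J z) 1 : Fin n → K)) a *
          eval x (pderiv a.succ (F i)) = w a * eval x (pderiv a.succ (F i)) -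
            ∑ z, c z * (if a = J z then eval x (pderiv a.succ (F i)) else 0) := by
        intro a
        rw [Pi.sub_apply, Finset.sum_apply, sub_mul, Finset.sum_mul]
        congr 1
        refine Finset.sum_congr rfl fun z _ => ?_
        rw [Pi.smul_apply, Pi.single_apply, smul_eq_mul, mul_assoc]
        congr 1
        split_ifs
        · rw [one_mul]
        · rw [zero_mul]
      simp only [h3]
      rw [Finset.sum_sub_distrib, Finset.sum_comm]
      simp only [← Finset.mul_sum, Finset.sum_ite_eq', Finset.mem_univ, if_true]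
      rw [sub_eq_zero]
      refine h2.symm.trans ?_
      show ∑ z, Gm _ z * c z = _
      exact Finset.sum_congr rfl fun z _ => mul_comm _ _
    have h2 := hN1 h1
    have h3 : rhoA x (Fin.cons 0 w' : Fin (n + 1) → K) = w' := by
      funext a
      show (Fin.cons 0 w' : Fin (n + 1) → K) a.succ - (Fin.cons 0 w' : Fin (n + 1) → K) 0 *
        x a.succ = w' a
      rw [Fin.cons_succ, Fin.cons_zero, zero_mul, sub_zero]
    have h4 : upA K n s w' ∈ Submodule.span K (Set.range v) := by
      have h5 : upA K n s (rhoA x (Fin.cons 0 w' : Fin (n + 1) → K)) ∈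
        Submodule.span K (Set.range v) := h2
      rwa [h3] at h5
    have h5 : w = w' + ∑ z, c z • (Pi.single (J z) 1 : Fin n → K) := by
      rw [hw', sub_add_cancel]
    rw [h5, map_add, map_sum]
    refine Submodule.add_mem _ h4 (Submodule.sum_mem _ fun z _ => ?_)
    rw [map_smul, ← hvZ]
    exact Submodule.smul_mem _ _ (Submodule.subset_span ⟨_, rfl⟩)
  have hspan : Submodule.span K (Set.range v) = ⊤ := by
    rw [eq_top_iff]
    intro f _
    have h1 : f = upA K n s (fun i => f (Sum.inl i)) +
        ∑ b, f (Sum.inr b) • (v (Sum.inl (Sum.inl (0, b))) -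
          upA K n s (fun a => opV (τ 0 b) x a.succ)) := by
      funext r
      rw [Pi.add_apply, Finset.sum_apply]
      rcases r with r | r
      · rw [Finset.sum_eq_zero]
        · exact (add_zero _).symm
        · intro b _
          rw [Pi.smul_apply, Pi.sub_apply, hvc]
          change f (Sum.inr b) • (opV (τ 0 b) x r.succ - opV (τ 0 b) x r.succ) = 0
          rw [sub_self, smul_zero]
      · rw [Finset.sum_eq_single r]
        · rw [Pi.smul_apply, Pi.sub_apply, hvc]
          change f (Sum.inr r) = 0 + f (Sum.inr r) • ((if r = r then x 0 else 0) - 0)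
          rw [if_pos rfl, hp, sub_zero, zero_add, smul_eq_mul, mul_one]
        · intro b _ hb
          rw [Pi.smul_apply, Pi.sub_apply, hvc]
          change f (Sum.inr b) • ((if b = r then x 0 else 0) - 0) = 0
          rw [if_neg hb, sub_zero, smul_zero]
        · intro h
          exact absurd (Finset.mem_univ r) h
    rw [h1]
    refine Submodule.add_mem _ (hup _) (Submodule.sum_mem _ fun b _ => Submodule.smul_mem _ _
      (Submodule.sub_mem _ (Submodule.subset_span ⟨_, rfl⟩) (hup _)))
  -- the last columns are independent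
  let h0 : Unit ⊕ Z → ((Fin (n + 1) × Fin s) ⊕ Unit) ⊕ Z :=
    Sum.elim (fun u => Sum.inl (Sum.inr u)) Sum.inr
  have hh0 : Function.Injective h0 := by
    rintro (u | z) (u' | z') h
    · rfl
    · exact absurd h (by simp [h0])
    · exact absurd h (by simp [h0])
    · exact congrArg Sum.inr (Sum.inr_injective h)
  have hDxne : ∀ a : K, a • (fun b : Fin n => D (x b.succ)) = 0 → a = 0 := by
    intro a ha
    have h1 : LinearIndependent K ![x, fun i => D (x i)] := hDx ▸ hPt.dx
    rw [LinearIndependent.pair_iff] at h1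
    refine (h1 0 a ?_).2
    rw [zero_smul, zero_add]
    funext i
    refine Fin.cases ?_ (fun b => ?_) i
    · show a • D (x 0) = 0
      rw [hD0, smul_zero]
    · exact congrFun ha b
  have hind : LinearIndepOn K v (Set.range h0) := by
    rw [linearIndepOn_range_iff hh0, Fintype.linearIndependent_iff]
    intro u hu
    have h1 : u (Sum.inl ()) • (fun b : Fin n => D (x b.succ)) +
        ∑ z, u (Sum.inr z) • (Pi.single (J z) 1 : Fin n → K) = 0 := by
      rw [Fintype.sum_sum_type] at hu
      simp only [Function.comp_apply, h0, Sum.elim_inl, Sum.elim_inr, hvZ] at hu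
      rw [Fintype.sum_unique] at hu
      have h2 : upA K n s (u (Sum.inl ()) • (fun b : Fin n => D (x b.succ)) +
          ∑ z, u (Sum.inr z) • (Pi.single (J z) 1 : Fin n → K)) = 0 := by
        rw [map_add, map_sum, map_smul, ← hvD]
        simp only [map_smul]
        exact hu
      funext a
      exact congrFun h2 (Sum.inl a)
    have h2 : (fun z => u (Sum.inr z)) = 0 := by
      refine hJu _ fun i => ?_
      have h3 : ∀ a : Fin n, (u (Sum.inl ()) • (fun b : Fin n => D (x b.succ)) +
        ∑ z, u (Sum.inr z) • (Pi.single (J z) 1 : Fin n → K)) a *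
          eval x (pderiv a.succ (F i)) = 0 := by
        intro a
        rw [h1, Pi.zero_apply, zero_mul]
      have h4 := Finset.sum_congr rfl fun a (_ : a ∈ Finset.univ) => h3 a
      rw [Finset.sum_const_zero] at h4
      have h5 : ∀ a : Fin n, (u (Sum.inl ()) • (fun b : Fin n => D (x b.succ)) +
        ∑ z, u (Sum.inr z) • (Pi.single (J z) 1 : Fin n → K)) a *
          eval x (pderiv a.succ (F i)) =
          u (Sum.inl ()) * (D (x a.succ) * eval x (pderiv a.succ (F i))) +
          ∑ z, u (Sum.inr z) * (if a = J z then eval x (pderiv a.succ (F i)) else 0) := by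
        intro a
        rw [Pi.add_apply, Pi.smul_apply, Finset.sum_apply, add_mul, Finset.sum_mul, smul_eq_mul,
          mul_assoc]
        congr 1
        refine Finset.sum_congr rfl fun z _ => ?_
        rw [Pi.smul_apply, Pi.single_apply, smul_eq_mul, mul_assoc]
        congr 1
        split_ifs
        · rw [one_mul]
        · rw [zero_mul]
      simp only [h5] at h4
      rw [Finset.sum_add_distrib, ← Finset.mul_sum, Finset.sum_comm] at h4
      simp only [← Finset.mul_sum, Finset.sum_ite_eq', Finset.mem_univ, if_true] at h4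
      have h6 : ∑ a : Fin n, D (x a.succ) * eval x (pderiv a.succ (F i)) = 0 := by
        have h7 := hE3 i i.2
        rw [Fin.sum_univ_succ] at h7
        change D (x 0) * _ + _ = 0 at h7
        rw [hD0, zero_mul, zero_add] at h7
        exact h7
      rw [h6, mul_zero, zero_add] at h4
      rw [← h4]
      exact Finset.sum_congr rfl fun z _ => mul_comm _ _
    have h3 : u (Sum.inl ()) = 0 := by
      refine hDxne _ ?_
      rw [Finset.sum_eq_zero, add_zero] at h1
      · exact h1
      · intro z _
        rw [show u (Sum.inr z) = 0 from congrFun h2 z, zero_smul]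
    rintro (⟨⟩ | z)
    · exact h3
    · exact congrFun h2 z
  obtain ⟨B, -, hB1, hB2, hB3⟩ := exists_linearIndepOn_extension hind (Set.subset_univ _)
  set T : Finset (Fin (n + 1) × Fin s) :=
    Finset.univ.filter fun c => Sum.inl (Sum.inl c) ∈ B with hT
  let g : (T ⊕ Unit) ⊕ Z → ((Fin (n + 1) × Fin s) ⊕ Unit) ⊕ Z :=
    Sum.map (Sum.map (fun c => c.1) id) id
  have hg : Function.Injective g :=
    (Subtype.val_injective.sumMap Function.injective_id).sumMap Function.injective_id
  have hgB : Set.range g = B := by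
    ext c
    constructor
    · rintro ⟨(c | t) | z, rfl⟩
      · exact (Finset.mem_filter.1 c.2).2
      · exact hB1 ⟨Sum.inl t, rfl⟩
      · exact hB1 ⟨Sum.inr z, rfl⟩
    · intro hc
      rcases c with (c | t) | z
      · exact ⟨Sum.inl (Sum.inl ⟨c, Finset.mem_filter.2 ⟨Finset.mem_univ c, hc⟩⟩), rfl⟩
      · exact ⟨Sum.inl (Sum.inr t), rfl⟩
      · exact ⟨Sum.inr z, rfl⟩
  have hli : LinearIndependent K (v ∘ g) := by
    rw [← linearIndepOn_range_iff hg, hgB]
    exact hB3
  have hsp : Submodule.span K (Set.range (v ∘ g)) = ⊤ := by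
    rw [Set.range_comp, hgB, eq_top_iff, ← hspan, Submodule.span_le]
    rw [Set.image_univ] at hB2
    exact hB2
  have hcard : Fintype.card ((T ⊕ Unit) ⊕ Z) = Fintype.card (Fin n ⊕ Fin s) := by
    have h1 := finrank_span_eq_card hli
    rw [hsp, finrank_top, Module.finrank_fintype_fun_eq_card] at h1
    exact h1.symm
  refine ⟨T, Fintype.equivOfCardEq hcard, ?_⟩
  refine det_ne_zero_of_indep (Fintype.equivOfCardEq hcard) _ ?_
  have h1 : (fun (c : (T ⊕ Unit) ⊕ Z) (r : Fin n ⊕ Fin s) =>
      bigA D x (fun c : T => τ c.1.1 c.1.2) (fun c => c.1.1) (fun c => c.1.2) J r c) =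
      v ∘ g := by
    funext c r
    rcases c with (c | c) | c <;> rcases r with r | r <;> rfl
  rw [h1]
  exact hli

end Pool.Agent.H3.CI
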